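import Pool.Agent.H500.ME.Stm

/-! # The part of finite order of a monomial-by-finite representation (`S_SPL`; helper51) -/

set_option autoImplicit false

namespace Pool.Agent.H51.ME.SPL

open Pool.Agent.H500.ME

section
variable {G : Type} [Group G] {n : ℕ} {C : Type} [Field C]

theorem sum_split {m m' : ℕ} (p : Fin n → Prop) (e : Fin m ≃ {i // p i})
    (e' : Fin m' ≃ {i // ¬ p i}) (f : Fin n → C) :
    ∑ k, f k = ∑ k, f (e k).1 + ∑ k, f (e' k).1 := by
  classical
  rw [← Fintype.sum_subtype_add_sum_subtype p f, ← Equiv.sum_comp e, ← Equiv.sum_comp e']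

/-- a diagonal block of a representation -/
noncomputable def blk {m m' : ℕ} (ρ : G →* GL (Fin n) C) (p : Fin n → Prop)
    (hp : ∀ g i j, p i → ¬ p j → (ρ g : Matrix (Fin n) (Fin n) C) i j = 0)
    (e : Fin m ≃ {i // p i}) (e' : Fin m' ≃ {i // ¬ p i}) : G →* GL (Fin m) C :=
  MonoidHom.toHomUnits
    { toFun := fun g => Matrix.of fun i j => (ρ g : Matrix (Fin n) (Fin n) C) (e i).1 (e j).1
      map_one' := by
        ext i j
        rw [map_one, Units.val_one, Matrix.of_apply, Matrix.one_apply, Matrix.one_apply]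
        congr 1
        rw [Subtype.coe_inj, e.injective.eq_iff]
      map_mul' := by
        intro g h
        ext i j
        rw [Matrix.mul_apply, map_mul, Units.val_mul, Matrix.of_apply, Matrix.mul_apply,
          sum_split p e e']
        have : ∑ k, (ρ g : Matrix (Fin n) (Fin n) C) (e i).1 (e' k).1 *
            (ρ h : Matrix (Fin n) (Fin n) C) (e' k).1 (e j).1 = 0 := by
          apply Finset.sum_eq_zero
          intro k _
          rw [hp g _ _ (e i).2 (e' k).2, zero_mul]
        rw [this, add_zero]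
        rfl }

theorem blk_apply {m m' : ℕ} (ρ : G →* GL (Fin n) C) (p : Fin n → Prop)
    (hp : ∀ g i j, p i → ¬ p j → (ρ g : Matrix (Fin n) (Fin n) C) i j = 0)
    (e : Fin m ≃ {i // p i}) (e' : Fin m' ≃ {i // ¬ p i}) (g : G) (i j : Fin m) :
    (blk ρ p hp e e' g : Matrix (Fin m) (Fin m) C) i j =
      (ρ g : Matrix (Fin n) (Fin n) C) (e i).1 (e j).1 := rfl

end

theorem main : S_SPL := by
  classical
  intro G _ U n C _ _ ρ hU _ hd
  have := hU
  let p : Fin n → Prop := fun i =>
    ∃ a : ℕ, 0 < a ∧ ∀ u ∈ U, (ρ u : Matrix (Fin n) (Fin n) C) i i ^ a = 1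
  -- the relation between entries
  have hrel : ∀ (g : G) (i j : Fin n), (ρ g : Matrix (Fin n) (Fin n) C) i j ≠ 0 → ∀ u ∈ U,
      (ρ u : Matrix (Fin n) (Fin n) C) i i = (ρ (g⁻¹ * u * g) : Matrix (Fin n) (Fin n) C) j j := by
    intro g i j hg u hu
    have hu' : g⁻¹ * u * g ∈ U := by
      have := hU.conj_mem u hu g⁻¹
      rwa [inv_inv] at this
    have h1 : (ρ u : Matrix (Fin n) (Fin n) C) * (ρ g : Matrix (Fin n) (Fin n) C) =
        (ρ g : Matrix (Fin n) (Fin n) C) * (ρ (g⁻¹ * u * g) : Matrix (Fin n) (Fin n) C) := by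
      rw [← Units.val_mul, ← Units.val_mul, ← map_mul, ← map_mul]
      congr 2
      group
    have h2 := congrFun (congrFun h1 i) j
    rw [← (hd u hu).diagonal_diag, ← (hd _ hu').diagonal_diag, Matrix.diagonal_mul,
      Matrix.mul_diagonal, mul_comm] at h2
    exact mul_left_cancel₀ hg h2
  have hiff : ∀ (g : G) (i j : Fin n), (ρ g : Matrix (Fin n) (Fin n) C) i j ≠ 0 →
      (p i ↔ p j) := by
    intro g i j hg
    constructor
    · rintro ⟨a, ha, h⟩
      refine ⟨a, ha, fun u hu => ?_⟩
      have h1 := hrel g i j hg (g * u * g⁻¹) (hU.conj_mem u hu g)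
      have h2 : g⁻¹ * (g * u * g⁻¹) * g = u := by group
      rw [h2] at h1
      rw [← h1]
      exact h _ (hU.conj_mem u hu g)
    · rintro ⟨a, ha, h⟩
      refine ⟨a, ha, fun u hu => ?_⟩
      rw [hrel g i j hg u hu]
      have := hU.conj_mem u hu g⁻¹
      rw [inv_inv] at this
      exact h _ this
  have hp0 : ∀ g i j, p i → ¬ p j → (ρ g : Matrix (Fin n) (Fin n) C) i j = 0 := by
    intro g i j hi hj
    by_contra hc
    exact hj ((hiff g i j hc).1 hi)
  have hp1 : ∀ g i j, ¬ p i → ¬ ¬ p j → (ρ g : Matrix (Fin n) (Fin n) C) i j = 0 := by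
    intro g i j hi hj
    by_contra hc
    exact hi ((hiff g i j hc).2 (not_not.1 hj))
  let e0 : Fin (Fintype.card {i // p i}) ≃ {i // p i} := (Fintype.equivFin _).symm
  let e1 : Fin (Fintype.card {i // ¬ p i}) ≃ {i // ¬ p i} := (Fintype.equivFin _).symm
  let e0' : {i // p i} ≃ {i // ¬ ¬ p i} := Equiv.subtypeEquivRight (fun i => not_not.symm)
  have hdiag : ∀ u ∈ U, ∀ i j, i ≠ j → (ρ u : Matrix (Fin n) (Fin n) C) i j = 0 :=
    fun u hu i j hij => hd u hu hij
  refine ⟨_, _, blk ρ p hp0 e0 e1, blk ρ (fun i => ¬ p i) hp1 e1 (e0.trans e0'),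
    fun k => (e0 k).1, fun k => (e1 k).1, ?_, ?_, ?_, ?_, ?_, ?_, ?_, ?_⟩
  · intro u hu
    ext i j
    rw [blk_apply, Matrix.diagonal_apply]
    split_ifs with h
    · rw [h]
    · exact hdiag u hu _ _ fun h' => h (e0.injective (Subtype.ext h'))
  · intro u hu
    ext i j
    rw [blk_apply, Matrix.diagonal_apply]
    split_ifs with h
    · rw [h]
    · exact hdiag u hu _ _ fun h' => h (e1.injective (Subtype.ext h'))
  · intro k
    exact (e0 k).2
  · intro k
    exact (e1 k).2
  · intro g i j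
    rfl
  · intro g i j
    rfl
  · intro g
    unfold Matrix.trace
    rw [sum_split p e0 e1]
    rfl
  · -- the invariants
    have hsupp : ∀ x ∈ Inv ρ, ∀ i, ¬ p i → x i = 0 := by
      intro x hx i hi
      by_contra hc
      apply hi
      refine ⟨1, one_pos, fun u hu => ?_⟩
      have h1 := congrFun (hx u) i
      rw [← (hd u hu).diagonal_diag, Matrix.mulVec_diagonal] at h1
      rw [pow_one]
      exact mul_right_cancel₀ hc (h1.trans (one_mul _).symm)
    have hext : ∀ y : Fin (Fintype.card {i // p i}) → C, ∀ k,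
        (fun i => if h : p i then y (e0.symm ⟨i, h⟩) else 0) (e0 k).1 = y k := by
      intro y k
      simp only [dif_pos (e0 k).2]
      congr 1
      exact e0.symm_apply_apply k
    refine LinearEquiv.finrank_eq (LinearEquiv.ofBijective
      (LinearMap.codRestrict (Inv (blk ρ p hp0 e0 e1))
        ((LinearMap.funLeft C C (fun k => (e0 k).1)) ∘ₗ (Inv ρ).subtype) ?_) ⟨?_, ?_⟩)
    · rintro ⟨x, hx⟩ g
      ext k
      change ∑ j, (ρ g : Matrix (Fin n) (Fin n) C) (e0 k).1 (e0 j).1 * x (e0 j).1 = x (e0 k).1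
      have h1 := congrFun (hx g) (e0 k).1
      change ∑ j, (ρ g : Matrix (Fin n) (Fin n) C) (e0 k).1 j * x j = x (e0 k).1 at h1
      rw [sum_split p e0 e1] at h1
      rw [← h1]
      symm
      rw [add_eq_left]
      apply Finset.sum_eq_zero
      intro j _
      rw [hp0 g _ _ (e0 k).2 (e1 j).2, zero_mul]
    · rintro ⟨x, hx⟩ ⟨y, hy⟩ hxy
      have h1 := congrArg Subtype.val hxy
      ext i
      change x i = y i
      by_cases hi : p i
      · have h2 := congrFun h1 (e0.symm ⟨i, hi⟩)
        change x (e0 (e0.symm ⟨i, hi⟩)).1 = y (e0 (e0.symm ⟨i, hi⟩)).1 at h2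
        rwa [e0.apply_symm_apply] at h2
      · rw [hsupp x hx i hi, hsupp y hy i hi]
    · rintro ⟨y, hy⟩
      refine ⟨⟨fun i => if h : p i then y (e0.symm ⟨i, h⟩) else 0, ?_⟩, ?_⟩
      · intro g
        ext i
        change ∑ j, (ρ g : Matrix (Fin n) (Fin n) C) i j *
          (if h : p j then y (e0.symm ⟨j, h⟩) else 0) = _
        rw [sum_split p e0 e1]
        have h2 : ∑ k, (ρ g : Matrix (Fin n) (Fin n) C) i (e1 k).1 *
            (if h : p (e1 k).1 then y (e0.symm ⟨(e1 k).1, h⟩) else 0) = 0 := by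
          apply Finset.sum_eq_zero
          intro k _
          rw [dif_neg (e1 k).2, mul_zero]
        rw [h2, add_zero]
        have h3 : ∀ k, (if h : p (e0 k).1 then y (e0.symm ⟨(e0 k).1, h⟩) else 0) = y k :=
          fun k => hext y k
        simp only [h3]
        by_cases hi : p i
        · rw [dif_pos hi]
          have h4 := congrFun (hy g) (e0.symm ⟨i, hi⟩)
          change ∑ k, (ρ g : Matrix (Fin n) (Fin n) C) (e0 (e0.symm ⟨i, hi⟩)).1 (e0 k).1 * y k = _
            at h4
          rw [e0.apply_symm_apply] at h4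
          exact h4
        · rw [dif_neg hi]
          apply Finset.sum_eq_zero
          intro k _
          rw [hp1 g i _ hi (not_not.2 (e0 k).2), zero_mul]
      · apply Subtype.ext
        ext k
        exact hext y k

end Pool.Agent.H51.ME.SPL
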